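import Pool.Agent.Helper38.RSP.Goals3
import Pool.Agent.Helper99.RS.QEX
import Mathlib.NumberTheory.RamificationInertia.Valuation

/-!
# Project RSP, packet SP_QEX: choice of the prime `𝔮`, for all `p`
-/

namespace Pool.Agent.Helper99.RSP

open NumberField Module IsDedekindDomain Pool.Agent.Helper51.RP Pool.Agent.Helper38.RSP
open Pool.Agent.Helper38.RS (pz)
open Pool.Agent.Helper99.RS (pz_mono pz_union pz_finite finite_bad exists_int exists_move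
  norm_ne_zero)

section ext

variable {M E : Type} [Field M] [NumberField M] [Field E] [NumberField E] [Algebra M E]

/-- The contraction of an extended ideal. -/
theorem mem_of_map (𝔪 : Ideal (𝓞 M)) (a : 𝓞 M)
    (h : algebraMap (𝓞 M) (𝓞 E) a ∈ 𝔪.map (algebraMap (𝓞 M) (𝓞 E))) : a ∈ 𝔪 := by
  have h1 : (Ideal.span {a}).map (algebraMap (𝓞 M) (𝓞 E)) ≤
      𝔪.map (algebraMap (𝓞 M) (𝓞 E)) := by
    rw [Ideal.map_span, Set.image_singleton, Ideal.span_singleton_le_iff_mem]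
    exact h
  have h2 : 𝔪.map (algebraMap (𝓞 M) (𝓞 E)) ∣ (Ideal.span {a}).map (algebraMap (𝓞 M) (𝓞 E)) :=
    Ideal.dvd_iff_le.2 h1
  have h3 := map_dvd (Ideal.relNorm (𝓞 M) (S := 𝓞 E)) h2
  rw [Ideal.relNorm_algebraMap, Ideal.relNorm_algebraMap] at h3
  have hn : finrank (𝓞 M) (𝓞 E) ≠ 0 := by
    have := Module.finrank_pos (R := 𝓞 M) (M := 𝓞 E)
    exact this.ne'
  have h4 : 𝔪 ∣ Ideal.span {a} := (UniqueFactorizationMonoid.pow_dvd_pow_iff_dvd hn).1 h3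
  exact (Ideal.span_singleton_le_iff_mem _).1 (Ideal.dvd_iff_le.1 h4)

theorem algebraMap_norm [IsGalois M E] (α : 𝓞 E) :
    algebraMap (𝓞 M) (𝓞 E) (Algebra.intNorm (𝓞 M) (𝓞 E) α) =
      ∏ σ : E ≃ₐ[M] E, galRestrict (𝓞 M) M E (𝓞 E) σ α := by
  apply FaithfulSMul.algebraMap_injective (𝓞 E) E
  rw [map_prod]
  simp only [algebraMap_galRestrict_apply]
  rw [← Algebra.norm_eq_prod_automorphisms, ← Algebra.algebraMap_intNorm (A := 𝓞 M) (K := M)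
    (L := E) (B := 𝓞 E)]
  rfl

theorem intNorm_congr [IsGalois M E] (𝔪 : Ideal (𝓞 M)) (α : 𝓞 E)
    (h : α - 1 ∈ 𝔪.map (algebraMap (𝓞 M) (𝓞 E))) :
    Algebra.intNorm (𝓞 M) (𝓞 E) α - 1 ∈ 𝔪 := by
  apply mem_of_map (E := E)
  rw [map_sub, map_one, algebraMap_norm]
  rw [← Ideal.Quotient.eq_zero_iff_mem, map_sub, map_one, sub_eq_zero, map_prod]
  refine Finset.prod_eq_one fun σ _ => ?_
  rw [← sub_eq_zero, ← map_one (Ideal.Quotient.mk (𝔪.map (algebraMap (𝓞 M) (𝓞 E)))), ← map_sub,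
    Ideal.Quotient.eq_zero_iff_mem]
  have h1 : 𝔪.map (algebraMap (𝓞 M) (𝓞 E)) ≤
      (𝔪.map (algebraMap (𝓞 M) (𝓞 E))).comap
        (galRestrict (𝓞 M) M E (𝓞 E) σ : 𝓞 E →+* 𝓞 E) := by
    rw [Ideal.map_le_iff_le_comap]
    intro x hx
    rw [Ideal.mem_comap, Ideal.mem_comap]
    have h2 : (galRestrict (𝓞 M) M E (𝓞 E) σ : 𝓞 E →+* 𝓞 E) (algebraMap (𝓞 M) (𝓞 E) x) =
        algebraMap (𝓞 M) (𝓞 E) x := AlgEquiv.commutes _ x
    rw [h2]
    exact Ideal.mem_map_of_mem _ hx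
  have h3 := h1 h
  rw [Ideal.mem_comap, map_sub, map_one] at h3
  exact h3

theorem relNorm_coprime [IsGalois M E] (𝔪 : Ideal (𝓞 M)) (I : Ideal (𝓞 E))
    (h : I ⊔ 𝔪.map (algebraMap (𝓞 M) (𝓞 E)) = ⊤) : Ideal.relNorm (𝓞 M) I ⊔ 𝔪 = ⊤ := by
  rw [Ideal.eq_top_iff_one] at h ⊢
  obtain ⟨a, ha, b, hb, hab⟩ := Submodule.mem_sup.1 h
  have h1 : a - 1 ∈ 𝔪.map (algebraMap (𝓞 M) (𝓞 E)) := by
    have h2 : a - 1 = -b := by
      rw [← hab]
      ring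
    rw [h2]
    exact neg_mem hb
  have h3 := intNorm_congr 𝔪 a h1
  have h4 : Algebra.intNorm (𝓞 M) (𝓞 E) a ∈ Ideal.relNorm (𝓞 M) I :=
    Ideal.intNorm_mem_spanNorm (𝓞 M) ha
  refine Submodule.mem_sup.2 ⟨_, h4, _, neg_mem h3, ?_⟩
  ring

theorem isPsi_up (p : ℕ) [Fact p.Prime] [IsGalois M E] (hco : (finrank M E).Coprime p)
    (𝔪 : Ideal (𝓞 M)) (ψ : Ideal (𝓞 M) → ZMod p) (hψ : IsPsi p 𝔪 ψ) :
    IsPsi p (𝔪.map (algebraMap (𝓞 M) (𝓞 E))) (fun I => ψ (Ideal.relNorm (𝓞 M) I)) := by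
  have hinj : Function.Injective (algebraMap (𝓞 M) (𝓞 E)) :=
    FaithfulSMul.algebraMap_injective (𝓞 M) (𝓞 E)
  refine ⟨?_, ?_, ?_, ?_⟩
  · rw [Ne, Ideal.map_eq_bot_iff_of_injective hinj]
    exact hψ.ne
  · intro I J hI hJ hI' hJ'
    change ψ (Ideal.relNorm (𝓞 M) (I * J)) = _
    rw [map_mul]
    refine hψ.mul _ _ ?_ ?_ (relNorm_coprime 𝔪 I hI') (relNorm_coprime 𝔪 J hJ')
    · rwa [Ne, Ideal.relNorm_eq_bot_iff]
    · rwa [Ne, Ideal.relNorm_eq_bot_iff]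
  · intro α hα h
    change ψ (Ideal.relNorm (𝓞 M) (Ideal.span {α})) = 0
    rw [Ideal.relNorm_singleton]
    refine hψ.ray _ ?_ (intNorm_congr 𝔪 α h)
    intro h0
    apply hα
    have h1 : Ideal.relNorm (𝓞 M) (Ideal.span {α}) = ⊥ := by
      rw [Ideal.relNorm_singleton, h0, Ideal.span_singleton_eq_bot]
    rw [Ideal.relNorm_eq_bot_iff, Ideal.span_singleton_eq_bot] at h1
    exact h1
  · obtain ⟨I, hI, hI', hI''⟩ := hψ.nontriv
    refine ⟨I.map (algebraMap (𝓞 M) (𝓞 E)), ?_, ?_, ?_⟩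
    · rwa [Ne, Ideal.map_eq_bot_iff_of_injective hinj]
    · rw [← Ideal.map_sup, hI', Ideal.map_top]
    · change ψ (Ideal.relNorm (𝓞 M) (I.map (algebraMap (𝓞 M) (𝓞 E)))) ≠ 0
      rw [Ideal.relNorm_algebraMap]
      have hfr : finrank (𝓞 M) (𝓞 E) = finrank M E :=
        (IsFractionRing.finrank_eq (𝓞 M) M (𝓞 E) E).symm
      rw [hfr]
      have hone : ψ 1 = 0 := by
        have h1 := hψ.ray 1 one_ne_zero (by rw [sub_self]; exact zero_mem _)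
        rwa [Ideal.span_singleton_one, ← Ideal.one_eq_top] at h1
      have hpow : ∀ n : ℕ, I ^ n ≠ ⊥ ∧ I ^ n ⊔ 𝔪 = ⊤ ∧ ψ (I ^ n) = n * ψ I := by
        intro n
        induction n with
        | zero =>
          refine ⟨?_, ?_, ?_⟩
          · rw [pow_zero, Ideal.one_eq_top]
            exact top_ne_bot
          · rw [pow_zero, Ideal.one_eq_top, top_sup_eq]
          · rw [pow_zero, hone, Nat.cast_zero, zero_mul]
        | succ n ih =>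
          obtain ⟨h1, h2, h3⟩ := ih
          refine ⟨pow_ne_zero _ hI, ?_, ?_⟩
          · rw [← Ideal.isCoprime_iff_sup_eq] at hI' ⊢
            exact hI'.pow_left
          · rw [pow_succ, hψ.mul _ _ h1 hI h2 hI', h3]
            push_cast
            ring
      rw [(hpow _).2.2]
      refine mul_ne_zero ?_ hI''
      intro h0
      rw [ZMod.natCast_eq_zero_iff] at h0
      have h5 : p ∣ 1 := by
        rw [← hco]
        exact Nat.dvd_gcd h0 dvd_rfl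
      exact (Fact.out : p.Prime).one_lt.ne' (Nat.dvd_one.1 h5)

theorem val_up (𝔮 : HeightOneSpectrum (𝓞 M)) (𝔔 : HeightOneSpectrum (𝓞 E))
    (h : 𝔔.asIdeal.LiesOver 𝔮.asIdeal) :
    ∃ e : ℕ, e ≠ 0 ∧ ∀ x : M, 𝔔.valuation E (algebraMap M E x) = 𝔮.valuation M x ^ e :=
  ⟨_, Ideal.IsDedekindDomain.ramificationIdx'_ne_zero_of_liesOver 𝔔.asIdeal 𝔮.ne_bot, fun x =>
    (HeightOneSpectrum.valuation_liesOver E 𝔮 𝔔 x).symm⟩

theorem locPow_up (p : ℕ) (𝔮 : HeightOneSpectrum (𝓞 M)) (𝔔 : HeightOneSpectrum (𝓞 E))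
    (h : 𝔔.asIdeal.LiesOver 𝔮.asIdeal) (x : M) (hx : LocPow p 𝔮 x) :
    LocPow p 𝔔 (algebraMap M E x) := by
  obtain ⟨e, he, hv⟩ := val_up 𝔮 𝔔 h
  obtain ⟨y, hy⟩ := hx
  refine ⟨algebraMap M E y, ?_⟩
  rw [← map_pow, ← map_mul, ← map_one (algebraMap M E), ← map_sub, hv]
  exact pow_lt_one₀ zero_le' hy he

end ext

section analytic

theorem exists_prime (h1 : SP_HLF) (h4 : Pool.Agent.Helper38.RS.S_DG1) (p : ℕ) [Fact p.Prime]
    (F : Type) [Field F] [NumberField F] [IsTotallyComplex F] (𝔪 : Ideal (𝓞 F))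
    (ψ : Ideal (𝓞 F) → ZMod p) (hψ : IsPsi p 𝔪 ψ) (B : Set (HeightOneSpectrum (𝓞 F)))
    (β C₀ : ℝ) (hβ : β < 1 - 1 / (p : ℝ))
    (hB : ∀ s : ℝ, 1 < s → s ≤ 2 → pz B s ≤ β * Real.log (1 / (s - 1)) + C₀)
    (R : Set (HeightOneSpectrum (𝓞 F))) (hR : R.Finite) :
    ∃ v : HeightOneSpectrum (𝓞 F), v ∉ B ∧ v ∉ R ∧ (Ideal.absNorm v.asIdeal).Prime ∧
      v.asIdeal ⊔ 𝔪 = ⊤ ∧ ψ v.asIdeal ≠ 0 := by
  obtain ⟨C₁, hC₁⟩ := h1 p F 𝔪 ψ hψ
  obtain ⟨C₂, hC₂⟩ := h4 F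
  by_contra hcon
  push Not at hcon
  have hcov : {v : HeightOneSpectrum (𝓞 F) | v.asIdeal ⊔ 𝔪 = ⊤ ∧ ψ v.asIdeal ≠ 0} ⊆
      (B ∪ {v : HeightOneSpectrum (𝓞 F) | ¬ (Ideal.absNorm v.asIdeal).Prime}) ∪ R := by
    intro v hv
    by_contra hn
    rw [Set.mem_union, Set.mem_union, not_or, not_or] at hn
    obtain ⟨⟨hn1, hn2⟩, hn3⟩ := hn
    exact hv.2 (hcon v hn1 hn3 (not_not.1 hn2) hv.1)
  have key : ∀ s : ℝ, 1 < s → s ≤ 2 →
      (1 - 1 / (p : ℝ) - β) * Real.log (1 / (s - 1)) ≤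
        C₁ + C₀ + C₂ + (hR.toFinset.card : ℝ) := by
    intro s hs hs2
    have e1 := hC₁ s hs hs2
    have e2 := hC₂ s hs hs2
    have e3 := hB s hs hs2
    have e4 := pz_mono hcov s hs
    have e5 := pz_union (B ∪ {v : HeightOneSpectrum (𝓞 F) |
      ¬ (Ideal.absNorm v.asIdeal).Prime}) R s hs
    have e6 := pz_union B {v : HeightOneSpectrum (𝓞 F) |
      ¬ (Ideal.absNorm v.asIdeal).Prime} s hs
    have e7 := pz_finite hR s hs
    linarith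
  set C : ℝ := C₁ + C₀ + C₂ + (hR.toFinset.card : ℝ) with hC
  set γ : ℝ := 1 - 1 / (p : ℝ) - β with hγ
  have hγ0 : 0 < γ := by linarith
  set t : ℝ := (|C| + 1) / γ with ht
  have ht0 : 0 ≤ t := by positivity
  have hle : Real.exp (-t) ≤ 1 := by
    rw [Real.exp_le_one_iff]
    linarith
  have hpos : 0 < Real.exp (-t) := Real.exp_pos _
  have h12 := key (1 + Real.exp (-t)) (by linarith) (by linarith)
  rw [add_sub_cancel_left, one_div (Real.exp _), ← Real.exp_neg, Real.log_exp, neg_neg, ht,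
    mul_div_cancel₀ _ hγ0.ne'] at h12
  have h13 := le_abs_self C
  linarith

end analytic

theorem transfer (h1 : SP_HLF) (h4 : Pool.Agent.Helper38.RS.S_DG1) (p : ℕ) [Fact p.Prime]
    (K M E : Type) [Field K] [NumberField K] [Field M] [NumberField M] [Field E] [NumberField E]
    [Algebra K M] [IsGalois K M] [Algebra M E] [IsGalois M E] [IsTotallyComplex E]
    (hco : (finrank M E).Coprime p) (ε : E) (hε : IsPrimitiveRoot ε p)
    (𝔪 : Ideal (𝓞 M)) (ψ : Ideal (𝓞 M) → ZMod p) (hψ : IsPsi p 𝔪 ψ)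
    (B : Set (HeightOneSpectrum (𝓞 E)))
    (β C₀ : ℝ) (hβ : β < 1 - 1 / (p : ℝ))
    (hB : ∀ s : ℝ, 1 < s → s ≤ 2 → pz B s ≤ β * Real.log (1 / (s - 1)) + C₀)
    (Z : Set (HeightOneSpectrum (𝓞 M))) (hZ : Z.Finite) :
    ∃ (𝔮 : HeightOneSpectrum (𝓞 M)) (𝔔 : HeightOneSpectrum (𝓞 E)),
      𝔔.asIdeal.LiesOver 𝔮.asIdeal ∧ 𝔔 ∉ B ∧ 𝔔.valuation E (p : E) = 1 ∧
      𝔮 ∉ Z ∧ FreeP K 𝔮 ∧ 𝔮.asIdeal ⊔ 𝔪 = ⊤ ∧ ψ 𝔮.asIdeal ≠ 0 ∧
      p ∣ Ideal.absNorm 𝔮.asIdeal - 1 ∧ 𝔮.valuation M (p : M) = 1 := by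
  classical
  have hp : p.Prime := Fact.out
  have : NeZero p := ⟨hp.ne_zero⟩
  choose θ hθ using fun g : {g : M ≃ₐ[K] M // g ≠ 1} => exists_move g.1 g.2
  have hfinG : Finite (M ≃ₐ[K] M) := inferInstance
  have hinj : Function.Injective (algebraMap M E) := (algebraMap M E).injective
  have hR1 : {w : HeightOneSpectrum (𝓞 E) | w.valuation E (p : E) ≠ 1}.Finite :=
    finite_bad (by exact_mod_cast hp.ne_zero)
  have hR2 : (⋃ g : {g : M ≃ₐ[K] M // g ≠ 1},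
      {w : HeightOneSpectrum (𝓞 E) |
        w.valuation E (algebraMap M E (g.1 (θ g : M) - (θ g : M))) ≠ 1}).Finite := by
    refine Set.finite_iUnion fun g => ?_
    exact finite_bad (by rw [Ne, map_eq_zero_iff _ hinj]; exact hθ g)
  have hzex : ∀ z : HeightOneSpectrum (𝓞 M), ∃ a : 𝓞 M, a ∈ z.asIdeal ∧ a ≠ 0 := by
    intro z
    obtain ⟨a, ha, ha0⟩ := Submodule.exists_mem_ne_zero_of_ne_bot z.ne_bot
    exact ⟨a, ha, ha0⟩
  choose az haz haz0 using hzex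
  have hR3 : (⋃ z ∈ Z, {w : HeightOneSpectrum (𝓞 E) |
        w.valuation E (algebraMap M E (az z : M)) ≠ 1}).Finite := by
    refine hZ.biUnion fun z _ => finite_bad ?_
    rw [Ne, map_eq_zero_iff _ hinj]
    exact RingOfIntegers.coe_ne_zero_iff.2 (haz0 z)
  obtain ⟨𝔔, hQB, hQR, hQN, hQm, hQψ⟩ := exists_prime h1 h4 p E
    (𝔪.map (algebraMap (𝓞 M) (𝓞 E))) (fun I => ψ (Ideal.relNorm (𝓞 M) I))
    (isPsi_up p hco 𝔪 ψ hψ) B β C₀ hβ hB _ ((hR1.union hR2).union hR3)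
  rw [Set.mem_union, Set.mem_union, not_or, not_or] at hQR
  obtain ⟨⟨hQ1, hQ2⟩, hQ3⟩ := hQR
  have hQ1' : 𝔔.valuation E (p : E) = 1 := not_not.1 hQ1
  have hQ2' : ∀ g : {g : M ≃ₐ[K] M // g ≠ 1},
      𝔔.valuation E (algebraMap M E (g.1 (θ g : M) - (θ g : M))) = 1 := by
    intro g
    by_contra hne
    exact hQ2 (Set.mem_iUnion.2 ⟨g, hne⟩)
  have hQ3' : ∀ z ∈ Z, 𝔔.valuation E (algebraMap M E (az z : M)) = 1 := by
    intro z hz
    by_contra hne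
    exact hQ3 (Set.mem_iUnion₂.2 ⟨z, hz, hne⟩)
  set 𝔮 : HeightOneSpectrum (𝓞 M) := HeightOneSpectrum.under (𝓞 M) 𝔔 with hq
  have hlies : 𝔔.asIdeal.LiesOver 𝔮.asIdeal := ⟨rfl⟩
  obtain ⟨e, he, hv⟩ := val_up 𝔮 𝔔 hlies
  have hdown : ∀ x : M, 𝔔.valuation E (algebraMap M E x) = 1 → 𝔮.valuation M x = 1 := by
    intro x hx
    rw [hv] at hx
    exact (pow_eq_one_iff_of_nonneg zero_le' he).1 hx
  have hprimeq : 𝔮.asIdeal.IsPrime := 𝔮.isPrime
  obtain ⟨s, hs⟩ := Ideal.exists_relNorm_eq_pow_of_isPrime 𝔔.asIdeal 𝔮.asIdeal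
  have hnorm : Ideal.absNorm 𝔔.asIdeal = Ideal.absNorm 𝔮.asIdeal ^ s := by
    rw [← Ideal.absNorm_relNorm (𝓞 M), hs, map_pow]
  have hs1 : s = 1 := by
    rw [hnorm] at hQN
    exact Nat.Prime.eq_one_of_pow hQN
  rw [hs1, pow_one] at hs hnorm
  have hqN : (Ideal.absNorm 𝔮.asIdeal).Prime := by rwa [← hnorm]
  have hpval : 𝔮.valuation M (p : M) = 1 := by
    apply hdown
    rw [map_natCast]
    exact hQ1'
  refine ⟨𝔮, 𝔔, hlies, hQB, hQ1', ?_, ?_, ?_, ?_, ?_, hpval⟩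
  · intro hz
    have h5 := hdown _ (hQ3' 𝔮 hz)
    have h6 : 𝔮.valuation M (algebraMap (𝓞 M) M (az 𝔮)) < 1 := by
      rw [HeightOneSpectrum.valuation_lt_one_iff_mem]
      exact haz 𝔮
    exact absurd h5 h6.ne
  · intro g hg
    by_contra hg1
    have h5 := hdown _ (hQ2' ⟨g, hg1⟩)
    obtain ⟨n, hn⟩ := exists_int 𝔮 hqN (θ ⟨g, hg1⟩)
    have h6 : 𝔮.valuation M ((θ ⟨g, hg1⟩ : M) - (n : M)) < 1 := by
      have h7 : ((θ ⟨g, hg1⟩ : M) - (n : M)) =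
          algebraMap (𝓞 M) M (θ ⟨g, hg1⟩ - (n : 𝓞 M)) := by
        rw [map_sub, map_intCast]
      rw [h7, HeightOneSpectrum.valuation_lt_one_iff_mem]
      exact hn
    have h8 : 𝔮.valuation M (g ((θ ⟨g, hg1⟩ : M) - (n : M))) < 1 := by
      rw [hg]
      exact h6
    have h9 : g ((θ ⟨g, hg1⟩ : 𝓞 M) : M) - ((θ ⟨g, hg1⟩ : 𝓞 M) : M) =
        g ((θ ⟨g, hg1⟩ : M) - (n : M)) - ((θ ⟨g, hg1⟩ : M) - (n : M)) := by
      rw [map_sub, map_intCast]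
      ring
    have h10 : 𝔮.valuation M (g ((θ ⟨g, hg1⟩ : 𝓞 M) : M) - ((θ ⟨g, hg1⟩ : 𝓞 M) : M)) < 1 := by
      rw [h9]
      exact Valuation.map_sub_lt _ h8 h6
    exact absurd h5 h10.ne
  · have h5 := relNorm_coprime 𝔪 𝔔.asIdeal hQm
    rwa [hs] at h5
  · change ψ (Ideal.relNorm (𝓞 M) 𝔔.asIdeal) ≠ 0 at hQψ
    rwa [hs] at hQψ
  · rw [← hnorm]
    have hcop : (Ideal.absNorm 𝔔.asIdeal).Coprime p := by
      rw [Nat.coprime_primes hQN hp]
      intro h5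
      have h6 : ((p : ℕ) : 𝓞 E) ∈ 𝔔.asIdeal := by
        rw [← h5]
        exact Ideal.absNorm_mem _
      have h7 : 𝔔.valuation E (algebraMap (𝓞 E) E (p : 𝓞 E)) < 1 := by
        rw [HeightOneSpectrum.valuation_lt_one_iff_mem]
        exact h6
      rw [map_natCast] at h7
      exact absurd hQ1' h7.ne
    have hε' : IsPrimitiveRoot hε.toInteger p := hε.toInteger_isPrimitiveRoot
    have hε'' := hε'.idealQuotient_mk (I := 𝔔.asIdeal) hQN.one_lt.ne' hcop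
    have hmax : 𝔔.asIdeal.IsMaximal := 𝔔.isMaximal
    let _ := Ideal.Quotient.field 𝔔.asIdeal
    have hu : IsPrimitiveRoot (Units.mk0 _ (hε''.ne_zero hp.ne_zero)) p :=
      IsPrimitiveRoot.coe_units_iff.1 hε''
    have hcard : Ideal.absNorm 𝔔.asIdeal = Nat.card (𝓞 E ⧸ 𝔔.asIdeal) := by
      rw [Ideal.absNorm_apply]
      rfl
    rw [hcard, ← Nat.card_units, hu.eq_orderOf]
    exact orderOf_dvd_natCard _

/-- A `p`-th power in an extension of degree prime to `p`. -/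
theorem pw_down (p : ℕ) [Fact p.Prime] {M E : Type} [Field M] [Field E] [Algebra M E]
    [FiniteDimensional M E] (hco : (finrank M E).Coprime p) (x : Mˣ) (y : E)
    (h : y ^ p = algebraMap M E (x : M)) : Pw p x := by
  have hn : finrank M E ≠ 0 := (Module.finrank_pos (R := M) (M := E)).ne'
  have h1 : (Algebra.norm M y) ^ p = (x : M) ^ finrank M E := by
    rw [← map_pow, h, Algebra.norm_algebraMap]
  have hN : Algebra.norm M y ≠ 0 := by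
    intro h0
    rw [h0, zero_pow (Fact.out : p.Prime).ne_zero] at h1
    exact pow_ne_zero _ x.ne_zero h1.symm
  have h2 : (Units.mk0 _ hN) ^ p = x ^ finrank M E := Units.ext (by simpa using h1)
  -- Bezout
  obtain ⟨a, b, hab⟩ : ∃ a b : ℤ, a * (finrank M E : ℤ) + b * (p : ℤ) = 1 := by
    have h3 : IsCoprime ((finrank M E : ℕ) : ℤ) ((p : ℕ) : ℤ) := Nat.isCoprime_iff_coprime.2 hco
    exact h3
  refine ⟨(Units.mk0 _ hN) ^ a * x ^ b, ?_⟩
  calc x = x ^ (a * (finrank M E : ℤ) + b * (p : ℤ)) := by rw [hab, zpow_one]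
    _ = (x ^ finrank M E) ^ a * (x ^ b) ^ (p : ℤ) := by
        rw [zpow_add, mul_comm a, zpow_mul, zpow_natCast, zpow_mul]
    _ = ((Units.mk0 _ hN) ^ a * x ^ b) ^ p := by
        rw [← h2, mul_pow, zpow_natCast]
        congr 1
        rw [← zpow_natCast, ← zpow_mul, ← zpow_natCast, ← zpow_mul, mul_comm]

/-- Packet SP_QEX. -/
theorem sp_qex (h1 : SP_HLF) (h2 : SP_KUM) (h3 : Pool.Agent.Helper38.RS.S_KUM)
    (h4 : Pool.Agent.Helper38.RS.S_DG1) : Pool.Agent.Helper38.RSP.SP_QEX := by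
  intro p _ K M _ _ _ _ _ _ _ 𝔪 ψ hψ δ x₀ hx hxx Z hZ
  classical
  have hp : p.Prime := Fact.out
  have hx0 : (x₀ : M) ≠ 0 := x₀.ne_zero
  by_cases hp2 : p = 2
  · subst hp2
    have hy0 : δ (x₀ : M) ≠ 0 := by
      rw [Ne, map_eq_zero_iff δ δ.injective]
      exact hx0
    have hsqx : ¬ ∃ z : M, z ^ 2 = (x₀ : M) := by
      rintro ⟨z, hz⟩
      have hz0 : z ≠ 0 := by
        rintro rfl
        exact hx0 (by rw [← hz]; ring)
      exact hx ⟨Units.mk0 z hz0, Units.ext (by simp [hz])⟩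
    have hsqy : ¬ ∃ z : M, z ^ 2 = δ (x₀ : M) := by
      rintro ⟨z, hz⟩
      apply hsqx
      refine ⟨δ.symm z, ?_⟩
      rw [← map_pow, hz, AlgEquiv.symm_apply_apply]
    have hsqxy : ¬ ∃ z : M, z ^ 2 = (x₀ : M) * δ (x₀ : M) := by
      rintro ⟨z, hz⟩
      have hz0 : z ≠ 0 := by
        rintro rfl
        exact mul_ne_zero hx0 hy0 (by rw [← hz]; ring)
      exact hxx rfl ⟨Units.mk0 z hz0, Units.ext (by simp [hz])⟩
    obtain ⟨C₀, hC₀⟩ := h3 M (x₀ : M) (δ (x₀ : M)) hx0 hy0 hsqx hsqy hsqxy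
    have hε : IsPrimitiveRoot (-1 : M) 2 := IsPrimitiveRoot.neg_one 0 (by norm_num)
    obtain ⟨𝔮, 𝔔, hl, hB, hval, hz, hfree, hm, hψq, hN, hval'⟩ := transfer h1 h4 2 K M M
      (by rw [Module.finrank_self]; exact Nat.coprime_one_left 2) (-1) hε 𝔪 ψ hψ
      {v : HeightOneSpectrum (𝓞 M) | v.valuation M 2 = 1 ∧
        Pool.Agent.Helper38.RS.LocSq v (x₀ : M) ∧ Pool.Agent.Helper38.RS.LocSq v (δ (x₀ : M))}
      (1 / 4) C₀ (by norm_num) hC₀ Z hZ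
    refine ⟨𝔮, hz, hfree, hm, hψq, hN, hval', ?_⟩
    by_contra hcon
    rw [not_or, not_not, not_not] at hcon
    apply hB
    refine ⟨by exact_mod_cast hval, ?_, ?_⟩
    · exact locPow_up (E := M) 2 𝔮 𝔔 hl _ hcon.1
    · exact locPow_up (E := M) 2 𝔮 𝔔 hl _ hcon.2
  · have hp3 : 3 ≤ p := by
      have := hp.two_le
      omega
    have : NeZero p := ⟨hp.ne_zero⟩
    have hpM : NeZero ((p : ℕ) : M) := ⟨by exact_mod_cast hp.ne_zero⟩
    let E := CyclotomicField p M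
    have hE : IsTotallyComplex E := isTotallyComplex_of_algebra M E
    have hgal : IsGalois M E := IsCyclotomicExtension.isGalois {p} M E
    have hζ : IsPrimitiveRoot (IsCyclotomicExtension.zeta p M E) p :=
      IsCyclotomicExtension.zeta_spec p M E
    have hdeg : finrank M E ≤ p - 1 := by
      rw [(hζ.powerBasis M).finrank, IsPrimitiveRoot.powerBasis_dim]
      have h5 : minpoly M (IsCyclotomicExtension.zeta p M E) ∣ Polynomial.cyclotomic p M := by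
        apply minpoly.dvd
        rw [Polynomial.aeval_def, ← Polynomial.eval_map, Polynomial.map_cyclotomic,
          ← Polynomial.IsRoot.def, Polynomial.isRoot_cyclotomic_iff]
        exact hζ
      refine (Polynomial.natDegree_le_of_dvd h5 (Polynomial.cyclotomic_ne_zero p M)).trans ?_
      rw [Polynomial.natDegree_cyclotomic, Nat.totient_prime hp]
    have hco : (finrank M E).Coprime p := by
      have h5 : 0 < finrank M E := Module.finrank_pos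
      exact (Nat.coprime_of_lt_prime h5.ne' (by omega) hp).symm
    have hx' : ¬ ∃ y : E, y ^ p = algebraMap M E (x₀ : M) := by
      rintro ⟨y, hy⟩
      exact hx (pw_down p hco x₀ y hy)
    obtain ⟨C₀, hC₀⟩ := h2 p E _ (algebraMap M E (x₀ : M)) hζ
      (by rw [Ne, map_eq_zero_iff _ (algebraMap M E).injective]; exact hx0) hx'
    have hβ : 1 / (p : ℝ) < 1 - 1 / (p : ℝ) := by
      have h5 : (3 : ℝ) ≤ (p : ℝ) := by exact_mod_cast hp3
      have h6 : 1 / (p : ℝ) ≤ 1 / 3 := one_div_le_one_div_of_le (by norm_num) h5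
      linarith
    obtain ⟨𝔮, 𝔔, hl, hB, hval, hz, hfree, hm, hψq, hN, hval'⟩ := transfer h1 h4 p K M E
      hco _ hζ 𝔪 ψ hψ
      {v : HeightOneSpectrum (𝓞 E) | v.valuation E (p : E) = 1 ∧
        LocPow p v (algebraMap M E (x₀ : M))}
      (1 / (p : ℝ)) C₀ hβ hC₀ Z hZ
    refine ⟨𝔮, hz, hfree, hm, hψq, hN, hval', Or.inl ?_⟩
    intro hcon
    exact hB ⟨hval, locPow_up p 𝔮 𝔔 hl _ hcon⟩

end Pool.Agent.Helper99.RSP
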